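import Pool.Agent.Helper47.Tower3

set_option autoImplicit false

namespace Pool.Agent.Results.MP_22cb07_al.AdditiveTowers

open MvPolynomial

/-- Let `K` be an infinite field of characteristic `p` with topologically finitely generated
absolute Galois group, and let `V ⊆ 𝔸ⁿ × 𝔸ᵐ` be a tower of additive covers of affine space over
`K`, given by `A_i(y_i) = f_i(x, y_1, …, y_{i-1})`, where `A_i(Y) = ∑_j a_{ij} Y^{p^j}` is a
separable additive polynomial (`a_{i0} ≠ 0`).  If `V(K)` is not empty, then the projection of `V(K)`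
to `𝔸ⁿ(K)` is Zariski dense; in particular `V(K)` is infinite if `n ≥ 1`. -/
theorem result {K : Type*} [Field K] [Infinite K] (p : ℕ) [Fact p.Prime] [CharP K p]
    (hK : ∃ S : Set (Field.absoluteGaloisGroup K), S.Finite ∧
      closure ((Subgroup.closure S : Subgroup (Field.absoluteGaloisGroup K)) :
        Set (Field.absoluteGaloisGroup K)) = Set.univ)
    (n m : ℕ) (r : Fin m → ℕ) (a : Fin m → ℕ → K) (ha : ∀ i, a i 0 ≠ 0)
    (f : Fin m → MvPolynomial (Fin n ⊕ Fin m) K)
    (hf : ∀ i j : Fin m, Sum.inr j ∈ (f i).vars → j < i)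
    (x₀ : Fin n → K) (y₀ : Fin m → K)
    (h₀ : ∀ i, ∑ j ∈ Finset.range (r i + 1), a i j * y₀ i ^ p ^ j =
      eval (Sum.elim x₀ y₀) (f i))
    (g : MvPolynomial (Fin n) K) (hg : g ≠ 0) :
    ∃ (x : Fin n → K) (y : Fin m → K),
      (∀ i, ∑ j ∈ Finset.range (r i + 1), a i j * y i ^ p ^ j =
        eval (Sum.elim x y) (f i)) ∧ eval x g ≠ 0 := by
  letI : Algebra (ZMod p) K := ZMod.algebra K p
  exact Pool.H47.Tower.tower_dense
    (fun i => (Pool.H47.Tower.addMap p (r i) (a i)).toZModLinearMap p)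
    (fun i => Pool.H47.Tower.finite_coker p hK (r i) (a i) (ha i)) f hf x₀ y₀ h₀ g hg

end Pool.Agent.Results.MP_22cb07_al.AdditiveTowers
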